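import Pool.Agent.R890.Ham.Two

/-!
# Generator sequences for groups with an abelian subgroup of index two

Let `G` be a finite group with an abelian subgroup of index two (dihedral, dicyclic and semidihedral groups,
generalised dihedral groups, wreath products `A wr Z_2`, ...). Then for every symmetric generating set `S` there is a
sequence of `|G|` elements of `S` whose partial products list every element of `G` exactly once.

Proof. Let `A` be the abelian subgroup, `T = S ∩ A`, `K = ⟨T⟩`, `s ∈ S \ A`, `K' = s K s⁻¹` and `M = K K'`.
On `A` the generators `T` give the cosets of `K`, on `A s` they give the cosets of `K'`. A coset of `K` has a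
Hamiltonian path from any vertex `e` to `e t`, for each nontrivial `t ∈ T`; so one can zigzag by the edges `s` between
the cosets of `K` in `x M` and those of `K'` in `x M s`, following at the same time two Hamiltonian paths of the
abelian groups `M / K` and `M / K'`, which have the same length. This gives a path through `x M ∪ x M s` from any
given element of `x M` to an element of `x M s`. These blocks are joined by a Hamiltonian path of the Cayley digraph
of `A / M` with the connection set of the `s u⁻¹`, `u ∈ S \ A` (Holsztynski and Strube: each Cayley
digraph of a finite abelian group has a Hamiltonian path).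
-/

set_option autoImplicit false

namespace Pool.Agent.Results.MP_688fd0_co.AbelianIndexTwo

/-- **Listing sequences for groups with an abelian subgroup of index two.** -/
theorem result {G : Type*} [Group G] [Finite G] (A : Subgroup G)
    (hA : ∀ x ∈ A, ∀ y ∈ A, x * y = y * x) (hI : A.index = 2) (S : Set G)
    (hS : ∀ x ∈ S, x⁻¹ ∈ S) (hgen : Subgroup.closure S = ⊤) :
    ∃ a : Fin (Nat.card G) → G, (∀ i, a i ∈ S) ∧
      Function.Injective fun k : Fin (Nat.card G) => Fin.partialProd a k.succ := by
  obtain ⟨u, v, h⟩ := Pool.Agent.R890.Ham.index_two A hA hI S hS hgen
  refine Pool.Agent.R890.Ham.listing h ?_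
  rw [Set.nonempty_iff_ne_empty]
  rintro rfl
  rw [Subgroup.closure_empty] at hgen
  have h1 : A = ⊤ := by
    rw [← top_le_iff, ← hgen]
    exact bot_le
  rw [h1, Subgroup.index_top] at hI
  omega

end Pool.Agent.Results.MP_688fd0_co.AbelianIndexTwo
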