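import Pool.Agent.R759.HCPair

/-!
Problem MP_688fd0_co: closed listing sequences (Hamiltonian cycles in Cayley graphs) for connection
sets which contain enough full conjugacy classes, or a subset normalised by its own elements along
which the remaining elements can be carried.
-/

namespace Pool.Agent.Results.MP_688fd0_co.ConjugacyClasses

open Pool.Agent.R759.HC

universe u

/-- `a_1, …, a_n ∈ A`, where `n = |G|`, have pairwise distinct partial products
`a_1, a_1 a_2, …, a_1 ⋯ a_n`, the last of which is `1`. -/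
def ClosedListing {G : Type u} [Group G] (A : Set G) (a : Fin (Nat.card G) → G) : Prop :=
  (∀ i, a i ∈ A) ∧
  Function.Injective (fun k : Fin (Nat.card G) => ((List.ofFn a).take (k.val + 1)).prod) ∧
  (List.ofFn a).prod = 1

/-- The elements of `A` whose whole conjugacy class lies in `A`. -/
def FullClasses {G : Type u} [Group G] (A : Set G) : Set G :=
  {a | a ∈ A ∧ ∀ g : G, g * a * g⁻¹ ∈ A}

/-- The elements `c` such that `h⁻¹ c h ∈ A` for all `h ∈ ⟨B⟩`, and the elements `c` of `A` such
that `c⁻¹ B c = B`. -/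
def Carried {G : Type u} [Group G] (A B : Set G) : Set G :=
  {c | (∀ h ∈ Subgroup.closure B, h⁻¹ * c * h ∈ A) ∨ (c ∈ A ∧ ∀ s, s ∈ B ↔ c⁻¹ * s * c ∈ B)}

theorem main {G : Type u} [Group G] [Finite G] (A : Set G) (hA : ∀ x ∈ A, x⁻¹ ∈ A)
    (B : Set G) (hBA : B ⊆ A) (hB : ∀ x ∈ B, x⁻¹ ∈ B) (hN : ∀ h ∈ B, ∀ s ∈ B, h * s * h⁻¹ ∈ B)
    (h3 : 3 ≤ Nat.card (Subgroup.closure B)) (hgen : Subgroup.closure (B ∪ Carried A B) = ⊤) :
    ∃ σ : Equiv.Perm G, CycOn A Set.univ σ := by
  obtain ⟨τ, hτ⟩ := self_normal_cyc B hB hN h3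
  exact mov_listing A B hA hB hBA h3 (Carried A B) (fun c hc => hc) hgen τ hτ

theorem result {G : Type u} [Group G] [Finite G] (A : Set G) (hA : ∀ x ∈ A, x⁻¹ ∈ A)
    (h : (Subgroup.closure A = ⊤ ∧ 3 ≤ Nat.card (Subgroup.closure (FullClasses A))) ∨
      (Subgroup.closure A = ⊤ ∧
        3 ≤ Nat.card (Subgroup.closure (A ∩ (Subgroup.normalizer A : Set G)))) ∨
      (∃ B ⊆ A, (∀ x ∈ B, x⁻¹ ∈ B) ∧ (∀ h ∈ B, ∀ s ∈ B, h * s * h⁻¹ ∈ B) ∧
        3 ≤ Nat.card (Subgroup.closure B) ∧ Subgroup.closure (B ∪ Carried A B) = ⊤) ∨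
      (Subgroup.closure A = ⊤ ∧ A.Nonempty ∧ ∀ g : G, ∀ x ∈ A, g * x * g⁻¹ ∈ A)) :
    ∃ a : Fin (Nat.card G) → G, ClosedListing A a := by
  have hnorm : ∀ a : G, a ∈ Subgroup.normalizer A → ∀ x ∈ A, a * x * a⁻¹ ∈ A := by
    intro a ha x hx
    exact (Subgroup.mem_set_normalizer_iff.1 ha x).1 hx
  have key : ∃ σ : Equiv.Perm G, CycOn A Set.univ σ := by
    rcases h with ⟨hgen, h3⟩ | ⟨hgen, h3⟩ | ⟨B, hBA, hB, hN, h3, hgen⟩ | ⟨hgen, hne, hconj⟩
    · -- full classes
      have conj : ∀ g s : G, s ∈ FullClasses A → g * s * g⁻¹ ∈ FullClasses A := by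
        intro g s hs
        refine ⟨hs.2 g, fun g' => ?_⟩
        have e : g' * (g * s * g⁻¹) * g'⁻¹ = (g' * g) * s * (g' * g)⁻¹ := by group
        rw [e]; exact hs.2 _
      refine main A hA (FullClasses A) (fun a ha => ha.1) ?_ (fun h _ s hs => conj h s hs) h3 ?_
      · intro x hx
        refine ⟨hA x hx.1, fun g => ?_⟩
        have e : g * x⁻¹ * g⁻¹ = (g * x * g⁻¹)⁻¹ := by group
        rw [e]; exact hA _ (hx.2 g)
      · rw [eq_top_iff, ← hgen]
        apply Subgroup.closure_mono
        intro c hc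
        right
        right
        refine ⟨hc, fun s => ⟨fun hs => ?_, fun hs => ?_⟩⟩
        · have := conj c⁻¹ s hs
          rwa [inv_inv] at this
        · have := conj c _ hs
          have e : c * (c⁻¹ * s * c) * c⁻¹ = s := by group
          rwa [e] at this
    · -- normalising elements
      refine main A hA (A ∩ (Subgroup.normalizer A : Set G)) Set.inter_subset_left ?_ ?_ h3 ?_
      · intro x hx
        exact ⟨hA x hx.1, Subgroup.inv_mem _ hx.2⟩
      · intro h hh s hs
        refine ⟨hnorm h hh.2 s hs.1, ?_⟩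
        exact Subgroup.mul_mem _ (Subgroup.mul_mem _ hh.2 hs.2) (Subgroup.inv_mem _ hh.2)
      · rw [eq_top_iff, ← hgen]
        apply Subgroup.closure_mono
        intro c hc
        right
        left
        intro h hh
        have h1 : h ∈ Subgroup.normalizer A := by
          have : Subgroup.closure (A ∩ (Subgroup.normalizer A : Set G)) ≤
              Subgroup.normalizer A := by
            rw [Subgroup.closure_le]
            exact Set.inter_subset_right
          exact this hh
        exact (Subgroup.mem_set_normalizer_iff''.1 h1 c).1 hc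
    · exact main A hA B hBA hB hN h3 hgen
    · by_cases h3 : 3 ≤ Nat.card G
      · exact normal_set_listing A hA hgen h3 (fun g x hx => hconj g x hx)
      · -- at most two elements
        have hpos : 0 < Nat.card G := Nat.card_pos
        obtain ⟨x, hx, hxG⟩ : ∃ x ∈ A, Subgroup.zpowers x = ⊤ := by
          by_cases h1 : ∃ x ∈ A, x ≠ 1
          · obtain ⟨x, hx, hx1⟩ := h1
            refine ⟨x, hx, ?_⟩
            apply Subgroup.eq_top_of_card_eq
            have h4 : Nat.card (Subgroup.zpowers x) ∣ Nat.card G :=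
              Subgroup.card_subgroup_dvd_card _
            have h5 : Nat.card (Subgroup.zpowers x) ≠ 1 := by
              rw [Nat.card_zpowers]
              intro h6
              exact hx1 (orderOf_eq_one_iff.1 h6)
            have h6 : 0 < Nat.card (Subgroup.zpowers x) := Nat.card_pos
            have h7 := Nat.le_of_dvd hpos h4
            omega
          · push Not at h1
            obtain ⟨x, hx⟩ := hne
            refine ⟨x, hx, ?_⟩
            rw [eq_top_iff, ← hgen, Subgroup.closure_le]
            intro y hy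
            rw [h1 y hy]
            exact Subgroup.one_mem _
        obtain ⟨τ, hτ, _⟩ := cyc_zpowers hx
        rw [hxG] at hτ
        exact ⟨τ, by simpa using hτ⟩
  obtain ⟨σ, hσ⟩ := key
  exact listing_of_cyc hσ

end Pool.Agent.Results.MP_688fd0_co.ConjugacyClasses
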