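import Pool.Agent.R759.HCPair

/-!
Problem MP_688fd0_co: closed listing sequences from two elements `a`, `b` whose Cayley graph is a
cycle and a bounded number of conjugates of the remaining generators.
-/

namespace Pool.Agent.Results.MP_688fd0_co.CyclePairs

open Pool.Agent.R759.HC

universe u

/-- `a ≠ b` are different from `1`, and either inverse to each other or both of order two; so the
Cayley graph of `⟨a, b⟩` with respect to `{a, b}` is a cycle. -/
def CyclePair {G : Type u} [Group G] (a b : G) : Prop :=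
  a ≠ 1 ∧ b ≠ 1 ∧ a ≠ b ∧ (b = a⁻¹ ∨ (a * a = 1 ∧ b * b = 1))

/-- The elements `c` of `G` for which at least three edges `{h, h s}` (`h ∈ ⟨a, b⟩`, `s = a` or
`s = b`) have both `h⁻¹ c h` and `(h s)⁻¹ c (h s)` in `A`. -/
def Flexible {G : Type u} [Group G] (A : Set G) (a b : G) : Set G :=
  {c | 3 ≤ Set.ncard {e : Sym2 G | ∃ h ∈ Subgroup.closure {a, b}, ∃ s : G, (s = a ∨ s = b) ∧
    e = s(h, h * s) ∧ h⁻¹ * c * h ∈ A ∧ (h * s)⁻¹ * c * (h * s) ∈ A}}

/-- The elements `c` of `A` such that `c⁻¹ {a, b} c = {a, b}`. -/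
def Normalising {G : Type u} [Group G] (A : Set G) (a b : G) : Set G :=
  {c | c ∈ A ∧ ∀ s, s ∈ ({a, b} : Set G) ↔ c⁻¹ * s * c ∈ ({a, b} : Set G)}

/-- `a_1, …, a_n ∈ A`, where `n = |G|`, have pairwise distinct partial products
`a_1, a_1 a_2, …, a_1 ⋯ a_n`, the last of which is `1`. -/
def ClosedListing {G : Type u} [Group G] (A : Set G) (a : Fin (Nat.card G) → G) : Prop :=
  (∀ i, a i ∈ A) ∧
  Function.Injective (fun k : Fin (Nat.card G) => ((List.ofFn a).take (k.val + 1)).prod) ∧
  (List.ofFn a).prod = 1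

theorem result {G : Type u} [Group G] [Finite G] (A : Set G) (hA : ∀ x ∈ A, x⁻¹ ∈ A)
    (a b : G) (ha : a ∈ A) (hb : b ∈ A) (hab : CyclePair a b)
    (hgen : Subgroup.closure ({a, b} ∪ (Flexible A a b ∪ Normalising A a b)) = ⊤) :
    ∃ s : Fin (Nat.card G) → G, ClosedListing A s := by
  obtain ⟨σ, hσ⟩ := pair_listing A hA ha hb (a := a) (b := b) hab
    (Flexible A a b ∪ Normalising A a b) (fun c hc => hc) hgen
  exact listing_of_cyc hσ

end Pool.Agent.Results.MP_688fd0_co.CyclePairs
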